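import Pool.Agent.Y627.CM.Neg

set_option autoImplicit false

/-!
Undershooting orbits of Chamberland's map follow the `3x+1` map until the latter exceeds `2 n`.
-/

namespace Y627.CM

open H488R2.CH Real

theorem psi_lt_half {w : ℝ} (h0 : 0 ≤ w) (h : psi w < 1/2) : w < 1 ∧ w ≤ 2 * psi w := by
  unfold psi at *
  rw [div_lt_div_iff₀ (by linarith) (by norm_num)] at h
  have h1 : w < 1 := by linarith
  refine ⟨h1, ?_⟩
  rw [← mul_div_assoc, le_div_iff₀ (by linarith)]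
  nlinarith

/-- crude size of one step -/
theorem step_size {m : ℕ} (h1 : 1 ≤ m) {η : ℝ} (h0 : 0 < η) (hu : (2*(m:ℝ)+1) * η ≤ 1)
    (hI : F (m - η) ∉ I (T m)) : F (m - η) < T m ∧ (T m : ℝ) - F (m - η) ≤ 2.74 * η := by
  have hm : (1:ℝ) ≤ m := by exact_mod_cast h1
  have hw : 0 < (2*(m:ℝ)+1) * η := by positivity
  rcases Nat.mod_two_eq_zero_or_one m with h | h
  · rcases step_even h h1 h0 hu with h2 | ⟨h2, h3⟩
    · exact absurd h2 hI
    · refine ⟨h2, h3.trans ?_⟩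
      nlinarith [mul_pos h0 hw]
  · obtain ⟨h2, h3⟩ := step_odd h h0 hu
    refine ⟨h2, h3.trans ?_⟩
    nlinarith [mul_le_mul_of_nonneg_left hu h0.le]

theorem T_iter_pos' {n : ℕ} (hn : 1 ≤ n) (k : ℕ) : 1 ≤ T^[k] n := by
  induction k with
  | zero => exact hn
  | succ k ih => rw [Function.iterate_succ_apply']; exact T_pos ih

section
variable {y : ℝ} {n : ℕ}

/-- constant of the first step -/
noncomputable def Q (n : ℕ) (w : ℝ) : ℝ := ((n:ℝ)+1) / (2*n+1) * (w/2 * (1 - 2*w))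

theorem first (hn2 : n % 2 = 0) (hn : 2 ≤ n) (hyn : y < n) (hw : (2*(n:ℝ)+1) * (n - y) < 0.75)
    (hF : F y < T n) (hI : F y ∉ I (T n)) :
    0 < 1 - 2 * ((2*(n:ℝ)+1) * (n - y)) ∧
      psi ((2*(T n:ℝ)+1) * ((T n:ℝ) - F y)) ≤
        ((2*(T n:ℝ)+1) / (n+1))^2 * Q n ((2*(n:ℝ)+1) * (n - y)) := by
  have hn' : (2:ℝ) ≤ n := by exact_mod_cast hn
  have e : (n:ℝ) - (n - y) = y := by ring
  have h0 : 0 < (n:ℝ) - y := by linarith
  have h3 : (T n:ℝ) - F y ≤ (n - y)/2 * (1 - 2 * ((2*(n:ℝ)+1) * (n - y))) := by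
    have := step_even hn2 (by omega) h0 (by linarith)
    rw [e] at this
    rcases this with h | h
    · exact absurd h hI
    · exact h.2
  have hpos : 0 < (T n:ℝ) - F y := by linarith
  have h4 : 0 < 1 - 2 * ((2*(n:ℝ)+1) * (n - y)) := by
    by_contra hneg
    push Not at hneg
    have : (n - y)/2 * (1 - 2 * ((2*(n:ℝ)+1) * (n - y))) ≤ 0 :=
      mul_nonpos_of_nonneg_of_nonpos (by linarith) hneg
    linarith
  refine ⟨h4, ?_⟩
  have hT : (2*(T n:ℝ)+1) = n + 1 := by rw [T_even hn2]; ring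
  rw [hT, div_self (by positivity), one_pow, one_mul]
  have k0 : 0 ≤ ((n:ℝ)+1) * ((T n:ℝ) - F y) := by positivity
  have k2 : psi (((n:ℝ)+1) * ((T n:ℝ) - F y)) ≤ ((n:ℝ)+1) * ((T n:ℝ) - F y) := by
    unfold psi
    rw [div_le_iff₀ (by linarith)]
    nlinarith
  refine k2.trans ?_
  have k3 := mul_le_mul_of_nonneg_left h3 (by positivity : (0:ℝ) ≤ (n:ℝ)+1)
  refine k3.trans (le_of_eq ?_)
  unfold Q
  have : (2*(n:ℝ)+1) ≠ 0 := by positivity
  field_simp

theorem Q_le (w : ℝ) : Q n w ≤ ((n:ℝ)+1) / (2*n+1) / 16 := by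
  unfold Q
  have h1 : 0 ≤ ((n:ℝ)+1) / (2*n+1) := by positivity
  have h2 : w/2 * (1 - 2*w) ≤ 1/16 := by nlinarith [sq_nonneg (w - 1/4)]
  have := mul_le_mul_of_nonneg_left h2 h1
  linarith

theorem follow (hn2 : n % 2 = 0) (hn : 2 ≤ n) (hyn : y < n) (hw : (2*(n:ℝ)+1) * (n - y) < 0.75)
    (hF : F y < T n) (hI : ∀ k m, 1 ≤ m → F^[k] y ∉ I m) :
    ∀ j, 1 ≤ j → (∀ i, 1 ≤ i → i < j → T^[i] n ≤ 2 * n) →
      F^[j] y < T^[j] n ∧
      psi ((2*(T^[j] n:ℝ)+1) * ((T^[j] n:ℝ) - F^[j] y)) ≤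
        ((2*(T^[j] n:ℝ)+1) / (n+1))^2 * Q n ((2*(n:ℝ)+1) * (n - y)) := by
  have hn' : (2:ℝ) ≤ n := by exact_mod_cast hn
  intro j hj
  induction j, hj using Nat.le_induction with
  | base =>
    intro _
    exact ⟨hF, (first hn2 hn hyn hw hF (hI 1 _ (T_pos (by omega)))).2⟩
  | succ j hj ih =>
    intro hb
    obtain ⟨h1, h2⟩ := ih (fun i hi hij => hb i hi (by omega))
    have hTj : T^[j] n ≤ 2 * n := hb j hj (by omega)
    have hTj' : ((T^[j] n : ℕ) : ℝ) ≤ 2 * n := by exact_mod_cast hTj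
    have hpos := T_iter_pos' (n := n) (by omega) j
    have hpos' : (1:ℝ) ≤ (T^[j] n : ℕ) := by exact_mod_cast hpos
    set m := T^[j] n with hm
    obtain ⟨w, hwd⟩ : ∃ w : ℝ, w = (2*(m:ℝ)+1) * ((m:ℝ) - F^[j] y) := ⟨_, rfl⟩
    have hη : 0 < (m:ℝ) - F^[j] y := by linarith
    have hw0 : 0 < w := by rw [hwd]; positivity
    have hQ := Q_le (n := n) ((2*(n:ℝ)+1) * (n - y))
    have hpsi : psi w < 1/2 := by
      rw [hwd]
      refine lt_of_le_of_lt h2 ?_
      have a1 : ((2*(m:ℝ)+1) / (n+1))^2 * Q n ((2*(n:ℝ)+1) * (n - y)) ≤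
          ((2*(m:ℝ)+1) / (n+1))^2 * (((n:ℝ)+1) / (2*n+1) / 16) :=
        mul_le_mul_of_nonneg_left hQ (sq_nonneg _)
      refine lt_of_le_of_lt a1 ?_
      have a2 : ((2*(m:ℝ)+1) / (n+1))^2 * (((n:ℝ)+1) / (2*n+1) / 16) =
          (2*(m:ℝ)+1)^2 / (16 * (n+1) * (2*n+1)) := by
        field_simp
      rw [a2, div_lt_div_iff₀ (by positivity) (by norm_num)]
      have a3 : (2*(m:ℝ)+1)^2 ≤ (4*n+1)^2 := by
        apply pow_le_pow_left₀ (by positivity); linarith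
      nlinarith
    obtain ⟨hw1, -⟩ := psi_lt_half hw0.le hpsi
    have hst := step hpos hη (by rw [← hwd]; exact hw1.le)
    have e : (m:ℝ) - ((m:ℝ) - F^[j] y) = F^[j] y := by ring
    rw [e] at hst
    have hs1 : F^[j+1] y = F (F^[j] y) := Function.iterate_succ_apply' F j y
    have hs2 : T^[j+1] n = T m := Function.iterate_succ_apply' T j n
    rw [hs1, hs2]
    rcases hst with hst | ⟨h3, h4⟩
    · exfalso
      have := hI (j+1) (T m) (T_pos hpos)
      rw [hs1] at this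
      exact this hst
    · refine ⟨h3, h4.trans ?_⟩
      have h5 := mul_le_mul_of_nonneg_left h2 (sq_nonneg ((2*(T m:ℝ)+1) / (2*(m:ℝ)+1)))
      refine h5.trans (le_of_eq ?_)
      have hne : (2*(m:ℝ)+1) ≠ 0 := by positivity
      have hne2 : ((n:ℝ)+1) ≠ 0 := by positivity
      field_simp

/-- while the `3x+1` orbit is at most `2 n` the deviation is small -/
theorem follow_small (hn2 : n % 2 = 0) (hn : 2 ≤ n) (hyn : y < n) (hw : (2*(n:ℝ)+1) * (n - y) < 0.75)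
    (hF : F y < T n) (hI : ∀ k m, 1 ≤ m → F^[k] y ∉ I m) (j : ℕ) (hj : 1 ≤ j)
    (hb : ∀ i, 1 ≤ i → i ≤ j → T^[i] n ≤ 2 * n) :
    F^[j] y < T^[j] n ∧ (2*(T^[j] n:ℝ)+1) * ((T^[j] n:ℝ) - F^[j] y) < 1 ∧
      (T^[j] n:ℝ) - F^[j] y ≤ 1/12 := by
  have hn' : (2:ℝ) ≤ n := by exact_mod_cast hn
  obtain ⟨h1, h2⟩ := follow hn2 hn hyn hw hF hI j hj (fun i hi hij => hb i hi (by omega))
  have hTj : T^[j] n ≤ 2 * n := hb j hj le_rfl
  have hTj' : ((T^[j] n : ℕ) : ℝ) ≤ 2 * n := by exact_mod_cast hTj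
  have hpos := T_iter_pos' (n := n) (by omega) j
  have hpos' : (1:ℝ) ≤ (T^[j] n : ℕ) := by exact_mod_cast hpos
  set m := T^[j] n with hm
  obtain ⟨w, hwd⟩ : ∃ w : ℝ, w = (2*(m:ℝ)+1) * ((m:ℝ) - F^[j] y) := ⟨_, rfl⟩
  have hη : 0 < (m:ℝ) - F^[j] y := by linarith
  have hw0 : 0 < w := by rw [hwd]; positivity
  have hQ := Q_le (n := n) ((2*(n:ℝ)+1) * (n - y))
  have hpsi0 : psi w ≤ (2*(m:ℝ)+1)^2 / (16 * (n+1) * (2*n+1)) := by
    rw [hwd]
    refine h2.trans ?_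
    have a1 : ((2*(m:ℝ)+1) / (n+1))^2 * Q n ((2*(n:ℝ)+1) * (n - y)) ≤
        ((2*(m:ℝ)+1) / (n+1))^2 * (((n:ℝ)+1) / (2*n+1) / 16) :=
      mul_le_mul_of_nonneg_left hQ (sq_nonneg _)
    refine a1.trans (le_of_eq ?_)
    field_simp
  have hpsi : psi w < 1/2 := by
    refine lt_of_le_of_lt hpsi0 ?_
    rw [div_lt_div_iff₀ (by positivity) (by norm_num)]
    have a3 : (2*(m:ℝ)+1)^2 ≤ (4*n+1)^2 := by
      apply pow_le_pow_left₀ (by positivity); linarith
    nlinarith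
  obtain ⟨hw1, hw2⟩ := psi_lt_half hw0.le hpsi
  refine ⟨h1, by rw [← hwd]; exact hw1, ?_⟩
  have b1 : w ≤ 2 * ((2*(m:ℝ)+1)^2 / (16 * (n+1) * (2*n+1))) := by linarith
  have b2 : (2*(m:ℝ)+1) * ((m:ℝ) - F^[j] y) ≤ (2*(m:ℝ)+1) * ((2*(m:ℝ)+1) / (8 * (n+1) * (2*n+1))) := by
    rw [← hwd]
    refine b1.trans (le_of_eq ?_)
    field_simp
    ring
  have b3 : (m:ℝ) - F^[j] y ≤ (2*(m:ℝ)+1) / (8 * (n+1) * (2*n+1)) :=
    le_of_mul_le_mul_left b2 (by positivity)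
  refine b3.trans ?_
  rw [div_le_div_iff₀ (by positivity) (by norm_num)]
  nlinarith

/-- **Main statement.** -/
theorem exceptional {p : ℕ} (hp : 0 < p) (hy : F^[p] y = y) (hn2 : n % 2 = 0) (hn : 2 ≤ n)
    (hyn : y < n) (hw : (2*(n:ℝ)+1) * (n - y) < 0.75)
    (hF : F y < T n) (hI : ∀ k m, 1 ≤ m → F^[k] y ∉ I m) :
    (2*(n:ℝ)+1) * (n - y) < 1/2 ∧
    ∃ j, 1 ≤ j ∧ j < p ∧ 2 * n < T^[j] n ∧
      (∀ i, i < j → T^[i] n ≤ 2 * n ∧ F^[i] y < T^[i] n ∧
        (2*(T^[i] n:ℝ)+1) * ((T^[i] n:ℝ) - F^[i] y) < 1) ∧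
      F^[j] y < T^[j] n ∧ (T^[j] n:ℝ) - F^[j] y < 1/4 := by
  have hn' : (2:ℝ) ≤ n := by exact_mod_cast hn
  have hfirst := (first hn2 hn hyn hw hF (hI 1 _ (T_pos (by omega)))).1
  refine ⟨by linarith, ?_⟩
  by_cases hex : ∃ j, 1 ≤ j ∧ j < p ∧ 2 * n < T^[j] n
  · classical
    obtain ⟨hj1, hj2, hj3⟩ := Nat.find_spec hex
    set j := Nat.find hex with hj
    have hmin : ∀ i, 1 ≤ i → i < j → T^[i] n ≤ 2 * n := by
      intro i hi hij
      by_contra hne
      push Not at hne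
      exact Nat.find_min hex hij ⟨hi, by omega, hne⟩
    refine ⟨j, hj1, hj2, hj3, ?_, ?_⟩
    · intro i hi
      rcases Nat.eq_zero_or_pos i with h0 | h0
      · subst h0
        simp only [Function.iterate_zero, id]
        exact ⟨by omega, hyn, by linarith⟩
      · obtain ⟨a1, a2, -⟩ := follow_small hn2 hn hyn hw hF hI i h0
          (fun i' h1 h2 => hmin i' h1 (by omega))
        exact ⟨hmin i h0 hi, a1, a2⟩
    · obtain ⟨k, hk⟩ : ∃ k, j = k + 1 := ⟨j - 1, by omega⟩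
      -- the step from `k` to `j`
      have hk1 : 1 ≤ k := by
        by_contra hk0
        have : j = 1 := by omega
        rw [this] at hj3
        have h2 : T^[1] n = T n := rfl
        rw [h2] at hj3
        have := two_T_even hn2
        omega
      obtain ⟨a1, a2, a3⟩ := follow_small hn2 hn hyn hw hF hI k hk1
          (fun i' h1 h2 => hmin i' h1 (by omega))
      have hposk := T_iter_pos' (n := n) (by omega) k
      have e : ((T^[k] n : ℕ):ℝ) - (((T^[k] n : ℕ):ℝ) - F^[k] y) = F^[k] y := by ring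
      have hs1 : F^[k+1] y = F (F^[k] y) := Function.iterate_succ_apply' F k y
      have hs2 : T^[k+1] n = T (T^[k] n) := Function.iterate_succ_apply' T k n
      have := step_size hposk (η := ((T^[k] n : ℕ):ℝ) - F^[k] y) (by linarith) a2.le (by
        rw [e, ← hs1, ← hs2]
        exact hI (k+1) _ (T_iter_pos' (by omega) _))
      rw [e, ← hs1, ← hs2, ← hk] at this
      exact ⟨this.1, by linarith [this.2]⟩
  · exfalso
    push Not at hex
    -- size at time `p`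
    obtain ⟨q, hq⟩ : ∃ q, p = q + 1 := ⟨p - 1, by omega⟩
    have hTn : (T n : ℝ) = n / 2 := T_even hn2
    have hny : (n:ℝ) - y < 0.15 := by
      have : 0 < (n:ℝ) - y := by linarith
      nlinarith
    rcases Nat.eq_zero_or_pos q with hq0 | hq0
    · subst hq0
      rw [hq] at hy
      have : F y = y := hy
      rw [this, hTn] at hF
      linarith
    · have hbd : ∀ i, 1 ≤ i → i ≤ q → T^[i] n ≤ 2 * n := fun i h1 h2 => hex i h1 (by omega)
      obtain ⟨a1, a2, a3⟩ := follow_small hn2 hn hyn hw hF hI q hq0 hbd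
      have hposk := T_iter_pos' (n := n) (by omega) q
      have e : ((T^[q] n : ℕ):ℝ) - (((T^[q] n : ℕ):ℝ) - F^[q] y) = F^[q] y := by ring
      have hs1 : F^[q+1] y = F (F^[q] y) := Function.iterate_succ_apply' F q y
      have hs2 : T^[q+1] n = T (T^[q] n) := Function.iterate_succ_apply' T q n
      have h5 := step_size hposk (η := ((T^[q] n : ℕ):ℝ) - F^[q] y) (by linarith) a2.le (by
        rw [e, ← hs1, ← hs2]
        exact hI (q+1) _ (T_iter_pos' (by omega) _))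
      rw [e, ← hs1, ← hs2, ← hq, hy] at h5
      have hTp : T^[p] n = n := by
        have c1 : ((T^[p] n : ℕ) : ℝ) < n + 1 := by linarith [h5.2]
        have c2 : (n:ℝ) < (T^[p] n : ℕ) + 1 := by linarith [h5.1]
        have c3 : T^[p] n < n + 1 := by exact_mod_cast c1
        have c4 : n < T^[p] n + 1 := by exact_mod_cast c2
        omega
      have h6 := (follow hn2 hn hyn hw hF hI p hp (fun i hi hip => hex i hi hip)).2
      rw [hTp, hy] at h6
      obtain ⟨w, hwd⟩ : ∃ w : ℝ, w = (2*(n:ℝ)+1) * (n - y) := ⟨_, rfl⟩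
      rw [← hwd] at h6 hfirst
      have hw0 : 0 < w := by
        rw [hwd]
        have : 0 < (n:ℝ) - y := by linarith
        positivity
      have h7 : ((2*(n:ℝ)+1) / (n+1))^2 * Q n w = (2*(n:ℝ)+1) / (n+1) * (w/2 * (1 - 2*w)) := by
        unfold Q; field_simp
      rw [h7] at h6
      have h8 : (2*(n:ℝ)+1) / (n+1) ≤ 2 := by
        rw [div_le_iff₀ (by positivity)]; linarith
      have h9 : psi w ≤ w * (1 - 2*w) := by
        refine h6.trans ?_
        have := mul_le_mul_of_nonneg_right h8 (by positivity : (0:ℝ) ≤ w/2 * (1 - 2*w))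
        linarith
      unfold psi at h9
      rw [div_le_iff₀ (by linarith)] at h9
      nlinarith [mul_pos hw0 hw0, mul_pos (mul_pos hw0 hw0) hw0]

end

end Y627.CM
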