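import Pool.Agent.H488R2.CH.PeriodBound

set_option autoImplicit false

/-!
Chamberland's map below the integers: a Lyapunov function for undershooting orbits.
-/

namespace Y627.CM

open H488R2.CH Real

/-- even step from below: the orbit enters the trap or undershoots with contraction -/
theorem step_even {m : ℕ} (h : m % 2 = 0) (h1 : 1 ≤ m) {η : ℝ} (h0 : 0 < η)
    (hu : (2*(m:ℝ)+1) * η ≤ 1) :
    F (m - η) ∈ I (T m) ∨ (F (m - η) < T m ∧ (T m : ℝ) - F (m - η) ≤ η/2 * (1 - 2 * ((2*(m:ℝ)+1) * η))) := by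
  have hm2 : 2 ≤ m := by omega
  have hm : (2:ℝ) ≤ m := by exact_mod_cast hm2
  obtain ⟨M, hM⟩ : ∃ M : ℝ, M = 2*(m:ℝ)+1 := ⟨_, rfl⟩
  have hM5 : 5 ≤ M := by rw [hM]; linarith
  rw [← hM] at hu ⊢
  obtain ⟨hp1, hp2⟩ := pi_sq_bounds
  have hη1 : η ≤ 0.2 := by nlinarith
  have hη20 : 0 ≤ η^2 := sq_nonneg η
  have hc2 := Real.one_sub_sq_div_two_le_cos (x := π * η)
  have hc3 : 1 - Real.cos (π * η) ≤ 4.93485 * η^2 := by
    have e2 : (π * η)^2 = π^2 * η^2 := by ring
    rw [e2] at hc2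
    have := mul_le_mul_of_nonneg_right hp2.le hη20
    linarith
  have hpp := Real.pi_lt_d6
  have hpp0 := Real.pi_pos
  have hc4 : 4.9345 * η^2 - 4.0588 * η^4 ≤ 1 - Real.cos (π*η) := by
    have h4 := cos_le_four (x := π * η) (by positivity) (by nlinarith)
    have e1 : (π * η)^2 = π^2 * η^2 := by ring
    have e2 : (π * η)^4 = (π^2)^2 * η^4 := by ring
    rw [e1, e2] at h4
    have e3 : (π^2)^2 ≤ 97.411 := by nlinarith
    have e4 : 0 ≤ η^4 := by positivity
    nlinarith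
  have e0 : (m:ℝ) - η = m + (-η) := by ring
  have e1 : π * (-η) = -(π * η) := by ring
  have hF : F (m - η) = T m + ((1 - Real.cos (π*η)) * (M/4 - η/2) - η/2) := by
    rw [e0, F_even h, ← hM, e1, Real.cos_neg]; ring
  have hMq : 0 ≤ M/4 - η/2 := by linarith
  have hupper : (1 - Real.cos (π*η)) * (M/4 - η/2) - η/2 ≤ nar (T m) := by
    have hT : nar (T m) = 1.46 / (M+1) := by
      unfold nar; rw [T_even h, hM]
      field_simp; ring
    rw [hT]
    have e4 : (1 - Real.cos (π*η)) * (M/4 - η/2) ≤ 4.93485 * η^2 * (M/4) := by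
      have hc1 := Real.cos_le_one (π * η)
      apply mul_le_mul hc3 (by linarith) (by linarith) (by positivity)
    have e5 : 4.93485 * η^2 * (M/4) - η/2 ≤ 0.75 / M := by
      rw [le_div_iff₀ (by linarith)]
      have : (4.93485 * η^2 * (M/4) - η/2) * M = 1.2337125 * (M*η)^2 - (M*η)/2 := by ring
      rw [this]
      have h3 : 0 ≤ M * η := by positivity
      nlinarith
    have e6 : 0.75 / M ≤ 1.46 / (M+1) := by
      rw [div_le_div_iff₀ (by linarith) (by linarith)]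
      nlinarith
    linarith
  by_cases hs : (T m : ℝ) ≤ F (m - η)
  · left
    refine ⟨hs, ?_⟩
    have := nar_le_wid (T m)
    linarith
  · right
    push Not at hs
    refine ⟨hs, ?_⟩
    rw [hF]
    have k1 : (4.9345 * η^2 - 4.0588 * η^4) * (M/4 - η/2) ≤ (1 - Real.cos (π*η)) * (M/4 - η/2) :=
      mul_le_mul_of_nonneg_right hc4 hMq
    have k2 : M * η^2 ≤ (4.9345 * η^2 - 4.0588 * η^4) * (M/4 - η/2) := by
      have a1 : (4.9345 * η^2 - 4.0588 * η^4) * (M/4 - η/2) = η^2 * ((4.9345 - 4.0588 * η^2) * (M/4 - η/2)) := by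
        ring
      rw [a1]
      have a2 : 4.77 ≤ 4.9345 - 4.0588 * η^2 := by nlinarith
      have a3 : 0.23 * M ≤ M/4 - η/2 := by linarith
      have a4 : 4.77 * (0.23 * M) ≤ (4.9345 - 4.0588 * η^2) * (M/4 - η/2) :=
        mul_le_mul a2 a3 (by positivity) (by linarith)
      have a5 : M ≤ (4.9345 - 4.0588 * η^2) * (M/4 - η/2) := by linarith
      have := mul_le_mul_of_nonneg_left a5 hη20
      linarith
    have k3 : η/2 * (1 - 2 * (M * η)) = η/2 - M * η^2 := by ring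
    rw [k3]
    linarith

/-- odd step from below -/
theorem step_odd {m : ℕ} (h : m % 2 = 1) {η : ℝ} (h0 : 0 < η)
    (hu : (2*(m:ℝ)+1) * η ≤ 1) :
    F (m - η) < T m ∧ (T m : ℝ) - F (m - η) ≤ 3/2 * η * (1 + 0.8225 * ((2*(m:ℝ)+1) * η)) := by
  have hm1 : 1 ≤ m := by omega
  have hm : (1:ℝ) ≤ m := by exact_mod_cast hm1
  obtain ⟨M, hM⟩ : ∃ M : ℝ, M = 2*(m:ℝ)+1 := ⟨_, rfl⟩
  have hM3 : 3 ≤ M := by rw [hM]; linarith
  rw [← hM] at hu ⊢
  obtain ⟨hp1, hp2⟩ := pi_sq_bounds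
  have hη1 : η ≤ 1/3 := by nlinarith
  have hη20 : 0 ≤ η^2 := sq_nonneg η
  have hc1 := Real.cos_le_one (π * η)
  have hc2 := Real.one_sub_sq_div_two_le_cos (x := π * η)
  have hc3 : 1 - Real.cos (π * η) ≤ 4.93485 * η^2 := by
    have e2 : (π * η)^2 = π^2 * η^2 := by ring
    rw [e2] at hc2
    have := mul_le_mul_of_nonneg_right hp2.le hη20
    linarith
  have e0 : (m:ℝ) - η = m + (-η) := by ring
  have e1 : π * (-η) = -(π * η) := by ring
  have hF : (T m : ℝ) - F (m - η) = 3/2 * η + (1 - Real.cos (π*η)) * (M/4 - η/2) := by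
    rw [e0, F_odd h, ← hM, e1, Real.cos_neg]; ring
  have hMq : 0 ≤ M/4 - η/2 := by linarith
  have k0 : 0 ≤ (1 - Real.cos (π*η)) * (M/4 - η/2) := mul_nonneg (by linarith) hMq
  constructor
  · linarith
  · rw [hF]
    have e4 : (1 - Real.cos (π*η)) * (M/4 - η/2) ≤ 4.93485 * η^2 * (M/4) := by
      apply mul_le_mul hc3 (by linarith) (by linarith) (by positivity)
    have e5 : 4.93485 * η^2 * (M/4) ≤ 3/2 * η * (0.8225 * (M * η)) := by
      have : 0 ≤ M * η^2 := by positivity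
      nlinarith
    linarith

/-- the Lyapunov function -/
noncomputable def psi (w : ℝ) : ℝ := w / (1 + w)

theorem psi_mono {a b : ℝ} (ha : 0 ≤ a) (h : a ≤ b) : psi a ≤ psi b := by
  unfold psi
  rw [div_le_div_iff₀ (by linarith) (by linarith)]
  nlinarith

/-- one step of the undershooting orbit -/
theorem step {m : ℕ} (h1 : 1 ≤ m) {η : ℝ} (h0 : 0 < η) (hu : (2*(m:ℝ)+1) * η ≤ 1) :
    F (m - η) ∈ I (T m) ∨ (F (m - η) < T m ∧
      psi ((2*(T m:ℝ)+1) * ((T m:ℝ) - F (m - η))) ≤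
        ((2*(T m:ℝ)+1) / (2*(m:ℝ)+1))^2 * psi ((2*(m:ℝ)+1) * η)) := by
  have hm : (1:ℝ) ≤ m := by exact_mod_cast h1
  obtain ⟨M, hM⟩ : ∃ M : ℝ, M = 2*(m:ℝ)+1 := ⟨_, rfl⟩
  have hM3 : 3 ≤ M := by rw [hM]; linarith
  obtain ⟨M', hM'⟩ : ∃ M' : ℝ, M' = 2*(T m:ℝ)+1 := ⟨_, rfl⟩
  obtain ⟨r, hr⟩ : ∃ r : ℝ, r = M' / M := ⟨_, rfl⟩
  have hMr : M' = r * M := by rw [hr]; field_simp
  obtain ⟨w, hw⟩ : ∃ w : ℝ, w = M * η := ⟨_, rfl⟩
  have hw0 : 0 < w := by rw [hw]; positivity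
  have hw1 : w ≤ 1 := by rw [hw, hM]; exact hu
  rcases Nat.mod_two_eq_zero_or_one m with h | h
  · rcases step_even h h1 h0 hu with h2 | ⟨h2, h3⟩
    · left; exact h2
    · right
      refine ⟨h2, ?_⟩
      rw [← hM] at h3 ⊢
      rw [← hw] at h3
      rw [← hM', ← hr, ← hw]
      have hr2 : 1/2 ≤ r := by
        rw [hr, le_div_iff₀ (by linarith), hM', T_even h, hM]; linarith
      have hpos : 0 < (T m:ℝ) - F (m - η) := by linarith
      have hM'pos : 0 < M' := by rw [hMr]; positivity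
      have k1 : M' * ((T m:ℝ) - F (m - η)) ≤ r^2 * (w * (1 - 2*w)) := by
        have a1 : M' * ((T m:ℝ) - F (m - η)) ≤ M' * (η/2 * (1 - 2*w)) :=
          mul_le_mul_of_nonneg_left h3 hM'pos.le
        have a2 : M' * (η/2 * (1 - 2*w)) = r/2 * (w * (1 - 2*w)) := by rw [hMr, hw]; ring
        have a3 : 0 ≤ w * (1 - 2*w) := by
          have : 0 < η/2 * (1 - 2*w) := lt_of_lt_of_le hpos h3
          have : 0 < 1 - 2*w := by
            by_contra hneg
            push Not at hneg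
            have : η/2 * (1 - 2*w) ≤ 0 := mul_nonpos_of_nonneg_of_nonpos (by linarith) hneg
            linarith
          positivity
        have a4 : r/2 * (w * (1 - 2*w)) ≤ r^2 * (w * (1 - 2*w)) := by
          apply mul_le_mul_of_nonneg_right _ a3
          nlinarith
        linarith
      have k0 : 0 ≤ M' * ((T m:ℝ) - F (m - η)) := by positivity
      have k2 : psi (M' * ((T m:ℝ) - F (m - η))) ≤ M' * ((T m:ℝ) - F (m - η)) := by
        unfold psi
        rw [div_le_iff₀ (by linarith)]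
        nlinarith
      refine k2.trans (k1.trans ?_)
      apply mul_le_mul_of_nonneg_left _ (sq_nonneg r)
      unfold psi
      rw [le_div_iff₀ (by linarith)]
      nlinarith [sq_nonneg w, mul_pos hw0 hw0]
  · right
    obtain ⟨h2, h3⟩ := step_odd h h0 hu
    refine ⟨h2, ?_⟩
    rw [← hM] at h3 ⊢
    rw [← hw] at h3
    rw [← hM', ← hr, ← hw]
    have hr2 : 3/2 ≤ r := by
      rw [hr, le_div_iff₀ (by linarith), hM', T_odd h, hM]; linarith
    have hpos : 0 < (T m:ℝ) - F (m - η) := by linarith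
    have hM'pos : 0 < M' := by rw [hMr]; positivity
    have k1 : M' * ((T m:ℝ) - F (m - η)) ≤ r^2 * (w * (1 + 0.8225*w)) := by
      have a1 : M' * ((T m:ℝ) - F (m - η)) ≤ M' * (3/2 * η * (1 + 0.8225*w)) :=
        mul_le_mul_of_nonneg_left h3 hM'pos.le
      have a2 : M' * (3/2 * η * (1 + 0.8225*w)) = (3/2) * r * (w * (1 + 0.8225*w)) := by rw [hMr, hw]; ring
      have a3 : 0 ≤ w * (1 + 0.8225*w) := by positivity
      have a4 : (3/2) * r * (w * (1 + 0.8225*w)) ≤ r^2 * (w * (1 + 0.8225*w)) := by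
        apply mul_le_mul_of_nonneg_right _ a3
        nlinarith
      linarith
    have k0 : 0 ≤ M' * ((T m:ℝ) - F (m - η)) := by positivity
    refine (psi_mono k0 k1).trans ?_
    unfold psi
    have b1 : (9:ℝ)/4 ≤ r^2 := by nlinarith
    have b2 : 0 < r^2 := by positivity
    obtain ⟨R, hR⟩ : ∃ R : ℝ, R = r^2 := ⟨_, rfl⟩
    rw [← hR] at b1 b2 ⊢
    have b3 : 0 < 1 + R * (w * (1 + 0.8225*w)) := by positivity
    rw [← mul_div_assoc, div_le_div_iff₀ b3 (by linarith)]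
    have b4 : (w * (1 + 0.8225*w)) * (1 + w) ≤ w * (1 + R * (w * (1 + 0.8225*w))) := by
      have c1 : (1 + 0.8225*w) * (1 + w) ≤ 1 + R * (w * (1 + 0.8225*w)) := by
        have c2 : (9:ℝ)/4 * (w * (1 + 0.8225*w)) ≤ R * (w * (1 + 0.8225*w)) :=
          mul_le_mul_of_nonneg_right b1 (by positivity)
        nlinarith
      have := mul_le_mul_of_nonneg_left c1 hw0.le
      nlinarith
    have := mul_le_mul_of_nonneg_left b4 b2.le
    nlinarith

end Y627.CM
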